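import Pool.Agent.Helper78.DT.Goals3

/-!
# ALL: approximation for all inputs
-/

namespace Pool.Agent.Helper89.DT

open Pool.Agent.Helper81.CC
open Pool.Agent.Helper78.DT

theorem pt_of_comp {α β : Type} [ToData α] [ToData β] {f : α → β}
    (h : PolyTimeComputable (encOf α) (encOf β) f) : PolyTime f :=
  ⟨Pool.Agent.Helper31.TMSim.scomp_of_polyTimeComputable h⟩

theorem all (hApx : ApxStmt) (hPtd : PtdStmt) (hBru : BruStmt) (hPtl : PtlStmt) : AllStmt := by
  intro c α _ A s hs
  have hs' : PolyTime s := pt_of_comp hs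
  have hm : PolyTime A.m := pt_of_comp A.m_poly
  have hT : PolyTime A.T := pt_of_comp A.T_poly
  have hw : PolyTime A.w := pt_of_comp A.w_poly
  obtain ⟨a, β, C, L0, h⟩ := hApx c
  obtain ⟨f0, hf0, h0⟩ := hBru α A s c (2 ^ L0) hs'
  have hsz : PolyTime (fun x => Pool.Agent.Helper78.DT.sz A x s) := by
    unfold Pool.Agent.Helper78.DT.sz
    fun_prop
  have hlg : PolyTime (fun x => lg (Pool.Agent.Helper78.DT.sz A x s)) :=
    (hPtl α _ _ _ hsz (PolyTime.const 0) (PolyTime.const 0)).1
  refine ⟨fun x => if L0 ≤ lg (Pool.Agent.Helper78.DT.sz A x s) then apx A x s c a β C else f0 x,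
    PolyTime.computable (PolyTime.itep (by fun_prop) (hPtd α A s c a β C hs') hf0), fun x => ?_⟩
  by_cases hL : L0 ≤ lg (Pool.Agent.Helper78.DT.sz A x s)
  · simp only [if_pos hL]
    exact h α A s x hL
  · simp only [if_neg hL]
    refine h0 x ?_
    have h1 : A.m x ≤ Pool.Agent.Helper78.DT.sz A x s := by
      unfold Pool.Agent.Helper78.DT.sz
      omega
    have h2 : Pool.Agent.Helper78.DT.sz A x s < 2 ^ (Nat.log 2 (Pool.Agent.Helper78.DT.sz A x s) + 1) :=
      Nat.lt_pow_succ_log_self (by norm_num) _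
    have h3 : 2 ^ (Nat.log 2 (Pool.Agent.Helper78.DT.sz A x s) + 1) ≤ 2 ^ L0 := by
      refine Nat.pow_le_pow_right (by norm_num) ?_
      unfold lg at hL
      omega
    omega

end Pool.Agent.Helper89.DT
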