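import Pool.Agent.Helper78.DT.Goals

/-!
# CLO: terms of small probability cannot cover much
-/

namespace Pool.Agent.Helper89.DT

open scoped Classical
open Pool.Agent.Helper78.DT

theorem min_le_rpow {k p η : ℝ} (hk : 0 ≤ k) (hp : 0 ≤ p) (hη : 0 < η) (hη1 : η ≤ 1) {q : ℝ}
    (h1 : q ≤ k) (h2 : q ≤ p) : q ≤ k ^ (1 - η) * p ^ η := by
  have key : ∀ a : ℝ, 0 ≤ a → a = a ^ (1 - η) * a ^ η := by
    intro a ha
    rcases ha.eq_or_lt with h | h
    · rw [← h, Real.zero_rpow hη.ne', mul_zero]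
    · rw [← Real.rpow_add h, sub_add_cancel, Real.rpow_one]
  rcases le_total p k with h | h
  · calc q ≤ p := h2
      _ = p ^ (1 - η) * p ^ η := key p hp
      _ ≤ k ^ (1 - η) * p ^ η :=
          mul_le_mul_of_nonneg_right (Real.rpow_le_rpow hp h (by linarith))
            (Real.rpow_nonneg hp _)
  · calc q ≤ k := h1
      _ = k ^ (1 - η) * k ^ η := key k hk
      _ ≤ k ^ (1 - η) * p ^ η :=
          mul_le_mul_of_nonneg_left (Real.rpow_le_rpow hk h hη.le) (Real.rpow_nonneg hk _)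

theorem clo (hkey : KeyStmt) : CloStmt := by
  intro V _ _ η k t Q F hη hη1 hk hF
  obtain ⟨f, hf⟩ : ∃ f : DL V, ∀ T, (∃ e ∈ f, e.1 = T) ↔ T ∈ F := by
    refine ⟨(Set.toFinite F).toFinset.toList.map fun T => (T, false), fun T => ?_⟩
    constructor
    · rintro ⟨e, he, rfl⟩
      rw [List.mem_map] at he
      obtain ⟨T, hT, rfl⟩ := he
      exact (Set.Finite.mem_toFinset (Set.toFinite F)).1 (Finset.mem_toList.1 hT)
    · intro hT
      exact ⟨(T, false), List.mem_map.2 ⟨T, Finset.mem_toList.2 ((Set.Finite.mem_toFinset (Set.toFinite F)).2 hT), rfl⟩, rfl⟩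
  have hget : ∀ i : Fin f.length, (f.get i).1 ∈ F := fun i =>
    (hf _).1 ⟨f.get i, List.get_mem f i, rfl⟩
  have hwid : Wid t f := fun e he => (hF e.1 ((hf _).1 ⟨e, he, rfl⟩)).1
  have h1 : pr (fun x => Q x ∧ ∃ T ∈ F, Sat T x) ≤
      ∑ i : Fin f.length, pr (fun x => Q x ∧ First f i x) := by
    refine le_trans (pr_mono fun x hx => ?_) (pr_exists_le Finset.univ fun i x => Q x ∧ First f i x)
    obtain ⟨hQ, T, hT, hs⟩ := hx
    obtain ⟨e, he, heT⟩ := (hf T).2 hT
    obtain ⟨i, hi⟩ := List.get_of_mem he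
    have hne : {i : Fin f.length | Sat (f.get i).1 x}.Nonempty := by
      refine ⟨i, ?_⟩
      show Sat (f.get i).1 x
      rw [hi, heT]
      exact hs
    obtain ⟨j, hj, hmin⟩ := (wellFounded_lt : WellFounded (α := Fin f.length) (· < ·)).has_min _ hne
    exact ⟨j, Finset.mem_univ _, hQ, hj, fun l hl hsl => hmin l hsl hl⟩
  have h2 : ∀ i : Fin f.length, pr (fun x => Q x ∧ First f i x) ≤
      k ^ (1 - η) * pr (First f i) ^ η := fun i =>
    min_le_rpow hk (pr_nonneg _) hη hη1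
      ((pr_mono fun x hx => ⟨hx.2.1, hx.1⟩).trans (hF _ (hget i)).2)
      (pr_mono fun x hx => hx.2)
  calc pr (fun x => Q x ∧ ∃ T ∈ F, Sat T x)
      ≤ ∑ i : Fin f.length, pr (fun x => Q x ∧ First f i x) := h1
    _ ≤ ∑ i : Fin f.length, k ^ (1 - η) * pr (First f i) ^ η := Finset.sum_le_sum fun i _ => h2 i
    _ = k ^ (1 - η) * ∑ i : Fin f.length, pr (First f i) ^ η := (Finset.mul_sum _ _ _).symm
    _ ≤ k ^ (1 - η) * (2 / η) ^ t :=
        mul_le_mul_of_nonneg_left (hkey V η t f hη hη1 hwid) (Real.rpow_nonneg hk _)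

end Pool.Agent.Helper89.DT
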