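import Pool.Agent.Helper78.DT.Goals

/-!
# ENC: the encoding argument
-/

namespace Pool.Agent.Helper89.DT

set_option linter.unusedSectionVars false

open scoped Classical
open Pool.Agent.Helper78.DT

/-- The weight of one value. -/
noncomputable def w1 (η : ℝ) (o : Option Bool) : ℝ := if o = none then 1 - η else η / 2

theorem w1_nonneg {η : ℝ} (hη : 0 < η) (hη1 : η ≤ 1) (o : Option Bool) : 0 ≤ w1 η o := by
  unfold w1
  split_ifs <;> linarith

section

variable {V : Type} [Fintype V] [DecidableEq V]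

theorem wt_eq (η : ℝ) (ρ : V → Option Bool) : wt η ρ = ∏ v, w1 η (ρ v) := rfl

theorem wt_nonneg {η : ℝ} (hη : 0 < η) (hη1 : η ≤ 1) (ρ : V → Option Bool) : 0 ≤ wt η ρ := by
  rw [wt_eq]
  exact Finset.prod_nonneg fun v _ => w1_nonneg hη hη1 _

theorem sum_wt (η : ℝ) : ∑ ρ : V → Option Bool, wt η ρ = 1 := by
  have h := (Finset.prod_univ_sum (fun _ : V => (Finset.univ : Finset (Option Bool)))
    (fun _ o => w1 η o)).symm
  rw [Fintype.piFinset_univ] at h
  have h1 : ∑ o : Option Bool, w1 η o = 1 := by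
    rw [Fintype.sum_option, Fintype.sum_bool]
    unfold w1
    simp only [reduceCtorEq, if_true, if_false]
    ring
  calc ∑ ρ : V → Option Bool, wt η ρ = ∑ ρ : V → Option Bool, ∏ v, w1 η (ρ v) := rfl
    _ = ∏ _v : V, ∑ o : Option Bool, w1 η o := h
    _ = 1 := by rw [h1]; exact Finset.prod_const_one

/-- The partial assignment satisfies the term. -/
def SatP (T : Tm V) (ρ : V → Option Bool) : Prop := ∀ p ∈ T, ρ p.1 = some p.2

/-- `ρ` completed by the literals of `T`. -/
noncomputable def enc (T : Tm V) (ρ : V → Option Bool) : V → Option Bool := fun v =>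
  if ρ v = none then
    (if (v, true) ∈ T then some true else if (v, false) ∈ T then some false else none)
  else ρ v

/-- The literals of `T` whose variables are free. -/
noncomputable def free (T : Tm V) (ρ : V → Option Bool) : Tm V := T.filter fun p => ρ p.1 = none

theorem dec_enc (T : Tm V) (ρ : V → Option Bool) :
    (fun v => if ∃ p ∈ free T ρ, p.1 = v then none else enc T ρ v) = ρ := by
  funext v
  by_cases h : ρ v = none
  · by_cases h1 : ∃ b, (v, b) ∈ T
    · obtain ⟨b, hb⟩ := h1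
      rw [if_pos ⟨(v, b), Finset.mem_filter.2 ⟨hb, h⟩, rfl⟩, h]
    · have ht : (v, true) ∉ T := fun h2 => h1 ⟨_, h2⟩
      have hf : (v, false) ∉ T := fun h2 => h1 ⟨_, h2⟩
      split_ifs with h2
      · exact h.symm
      · show enc T ρ v = ρ v
        unfold enc
        rw [if_pos h, if_neg ht, if_neg hf, h]
  · rw [if_neg, enc, if_neg h]
    rintro ⟨p, hp, rfl⟩
    exact h (Finset.mem_filter.1 hp).2

theorem wt_enc {η : ℝ} (hη : 0 < η) (T : Tm V) (ρ : V → Option Bool)
    (hT : ∀ v, (v, true) ∈ T → (v, false) ∉ T) :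
    wt η ρ = wt η (enc T ρ) * ((1 - η) / (η / 2)) ^ (free T ρ).card := by
  have hinj : Set.InjOn Prod.fst (free T ρ : Set (V × Bool)) := by
    rintro ⟨v, b⟩ h1 ⟨v', b'⟩ h2 h3
    have h1' := (Finset.mem_filter.1 (Finset.mem_coe.1 h1)).1
    have h2' := (Finset.mem_filter.1 (Finset.mem_coe.1 h2)).1
    simp only at h3
    subst h3
    cases b <;> cases b' <;> simp_all
  have hcard : (free T ρ).card = ((free T ρ).image Prod.fst).card :=
    (Finset.card_image_of_injOn hinj).symm
  rw [hcard, wt_eq, wt_eq]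
  have h1 : ∀ v, w1 η (ρ v) = w1 η (enc T ρ v) *
      (if v ∈ (free T ρ).image Prod.fst then (1 - η) / (η / 2) else 1) := by
    intro v
    have h2 : η / 2 * ((1 - η) / (η / 2)) = 1 - η := by field_simp
    by_cases h : ρ v = none
    · by_cases h1 : ∃ b, (v, b) ∈ T
      · have hm : v ∈ (free T ρ).image Prod.fst := by
          obtain ⟨b, hb⟩ := h1
          exact Finset.mem_image.2 ⟨(v, b), Finset.mem_filter.2 ⟨hb, h⟩, rfl⟩
        have he : enc T ρ v ≠ none := by
          unfold enc
          rw [if_pos h]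
          obtain ⟨b, hb⟩ := h1
          cases b
          · split_ifs <;> simp
          · rw [if_pos hb]; simp
        rw [if_pos hm, w1, w1, if_pos h, if_neg he, h2]
      · have hm : v ∉ (free T ρ).image Prod.fst := by
          intro hm
          obtain ⟨p, hp, rfl⟩ := Finset.mem_image.1 hm
          exact h1 ⟨p.2, (Finset.mem_filter.1 hp).1⟩
        have he : enc T ρ v = none := by
          unfold enc
          rw [if_pos h, if_neg fun h3 => h1 ⟨_, h3⟩, if_neg fun h3 => h1 ⟨_, h3⟩]
        rw [if_neg hm, w1, w1, if_pos h, if_pos he, mul_one]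
    · have hm : v ∉ (free T ρ).image Prod.fst := by
        intro hm
        obtain ⟨p, hp, rfl⟩ := Finset.mem_image.1 hm
        exact h (Finset.mem_filter.1 hp).2
      rw [if_neg hm, mul_one]
      unfold enc
      rw [if_neg h]
  rw [Finset.prod_congr rfl fun v _ => h1 v, Finset.prod_mul_distrib, Finset.prod_ite_mem,
    Finset.univ_inter, Finset.prod_const]

/-- The first index whose term is satisfied by a partial assignment. -/
def FirstP (f : DL V) (i : Fin f.length) (ρ : V → Option Bool) : Prop :=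
  SatP (f.get i).1 ρ ∧ ∀ j, j < i → ¬ SatP (f.get j).1 ρ

theorem firstP_unique {f : DL V} {i j : Fin f.length} {ρ : V → Option Bool}
    (hi : FirstP f i ρ) (hj : FirstP f j ρ) : i = j := by
  rcases lt_trichotomy i j with h | h | h
  · exact absurd hi.1 (hj.2 i h)
  · exact h
  · exact absurd hj.1 (hi.2 j h)

/-- The first satisfied term. -/
noncomputable def ft (f : DL V) (ρ : V → Option Bool) : Tm V :=
  if h : ∃ i, FirstP f i ρ then (f.get h.choose).1 else ∅

theorem ft_eq {f : DL V} {i : Fin f.length} {ρ : V → Option Bool} (hi : FirstP f i ρ) :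
    ft f ρ = (f.get i).1 := by
  have h : ∃ i, FirstP f i ρ := ⟨i, hi⟩
  rw [ft, dif_pos h, firstP_unique h.choose_spec hi]

theorem ft_card {f : DL V} {t : ℕ} (hf : Wid t f) (ρ : V → Option Bool) : (ft f ρ).card ≤ t := by
  unfold ft
  split_ifs with h
  · exact hf _ (List.get_mem f _)
  · simp

theorem consistent {T : Tm V} {x : V → Bool} (h : Sat T x) :
    ∀ v, (v, true) ∈ T → (v, false) ∉ T := by
  intro v h1 h2
  have a := h _ h1
  have b := h _ h2
  simp only at a b
  rw [a] at b
  exact absurd b (by decide)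

theorem ext_enc {T : Tm V} {x : V → Bool} {ρ : V → Option Bool} (h : Sat T x) (hx : Ext ρ x) :
    Ext (enc T ρ) x := by
  intro v b hb
  unfold enc at hb
  split_ifs at hb with h1 h2 h3
  · have := h _ h2
    simp only at this
    rw [this]
    exact Option.some_injective _ hb
  · have := h _ h3
    simp only at this
    rw [this]
    exact Option.some_injective _ hb
  · exact hx v b hb

theorem satP_enc {T : Tm V} {x : V → Bool} {ρ : V → Option Bool} (h : Sat T x) (hx : Ext ρ x) :
    SatP T (enc T ρ) := by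
  rintro ⟨v, b⟩ hp
  have hxv : x v = b := h _ hp
  show enc T ρ v = some b
  unfold enc
  by_cases h1 : ρ v = none
  · rw [if_pos h1]
    cases b
    · rw [if_neg fun h2 => consistent h v h2 hp, if_pos hp]
    · rw [if_pos hp]
  · rw [if_neg h1]
    obtain ⟨c, hc⟩ := Option.ne_none_iff_exists'.1 h1
    rw [hc, ← hx v c hc, hxv]

theorem sat_of_satP {T : Tm V} {x : V → Bool} {ρ : V → Option Bool} (h : SatP T ρ)
    (hx : Ext ρ x) : Sat T x := fun p hp => hx _ _ (h p hp)

theorem firstP_enc {f : DL V} {i : Fin f.length} {x : V → Bool} {ρ : V → Option Bool}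
    (h : First f i x) (hx : Ext ρ x) : FirstP f i (enc (f.get i).1 ρ) :=
  ⟨satP_enc h.1 hx, fun j hj hs => h.2 j hj (sat_of_satP hs (ext_enc h.1 hx))⟩

end

theorem encS : EncStmt := by
  intro V _ _ η t f hη hη1 hf
  set r : ℝ := (1 - η) / (η / 2) with hr
  have hr0 : 0 ≤ r := div_nonneg (by linarith) (by linarith)
  -- the valid pairs
  set S : Finset (Fin f.length × (V → Option Bool)) :=
    Finset.univ.filter fun q => ∃ x, First f q.1 x ∧ Ext q.2 x with hS
  set g : Fin f.length × (V → Option Bool) → (V → Option Bool) × Tm V :=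
    fun q => (enc (f.get q.1).1 q.2, free (f.get q.1).1 q.2) with hg
  set W : (V → Option Bool) × Tm V → ℝ := fun q => wt η q.1 * r ^ q.2.card with hW
  set T : Finset ((V → Option Bool) × Tm V) :=
    Finset.univ.filter fun q => q.2 ⊆ ft f q.1 with hT
  have hW0 : ∀ q, 0 ≤ W q := fun q => mul_nonneg (wt_nonneg hη hη1 _) (pow_nonneg hr0 _)
  have h1 : ∑ i, qq η (First f i) = ∑ q ∈ S, wt η q.2 := by
    rw [hS, Finset.sum_filter, Fintype.sum_prod_type]
    rfl
  have h2 : ∑ q ∈ S, wt η q.2 = ∑ q ∈ S, W (g q) := by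
    refine Finset.sum_congr rfl fun q hq => ?_
    obtain ⟨x, hx, -⟩ := (Finset.mem_filter.1 hq).2
    exact wt_enc hη _ _ (consistent hx.1)
  have hinj : Set.InjOn g (S : Set _) := by
    rintro ⟨i, ρ⟩ h3 ⟨j, σ⟩ h4 h5
    obtain ⟨x, hx, hxρ⟩ := (Finset.mem_filter.1 (Finset.mem_coe.1 h3)).2
    obtain ⟨y, hy, hyσ⟩ := (Finset.mem_filter.1 (Finset.mem_coe.1 h4)).2
    simp only at hx hxρ hy hyσ
    have ha : enc (f.get i).1 ρ = enc (f.get j).1 σ := congrArg Prod.fst h5
    have hb : free (f.get i).1 ρ = free (f.get j).1 σ := congrArg Prod.snd h5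
    have hi := firstP_enc hx hxρ
    have hj := firstP_enc hy hyσ
    rw [ha] at hi
    have hij : i = j := firstP_unique hi hj
    have e1 := dec_enc (f.get i).1 ρ
    have e2 := dec_enc (f.get j).1 σ
    rw [ha, hb, e2] at e1
    rw [hij, e1]
  have h3 : ∑ q ∈ S, W (g q) = ∑ q ∈ S.image g, W q := (Finset.sum_image hinj).symm
  have h4 : ∑ q ∈ S.image g, W q ≤ ∑ q ∈ T, W q := by
    refine Finset.sum_le_sum_of_subset_of_nonneg ?_ fun q _ _ => hW0 q
    intro q hq
    obtain ⟨⟨i, ρ⟩, hp, rfl⟩ := Finset.mem_image.1 hq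
    obtain ⟨x, hx, hxρ⟩ := (Finset.mem_filter.1 hp).2
    refine Finset.mem_filter.2 ⟨Finset.mem_univ _, ?_⟩
    show free (f.get i).1 ρ ⊆ ft f (enc (f.get i).1 ρ)
    rw [ft_eq (firstP_enc hx hxρ)]
    exact Finset.filter_subset _ _
  have h5 : ∑ q ∈ T, W q = ∑ ρ, wt η ρ * (r + 1) ^ (ft f ρ).card := by
    rw [hT, Finset.sum_filter, Fintype.sum_prod_type]
    refine Finset.sum_congr rfl fun ρ _ => ?_
    rw [← Finset.sum_filter]
    have h6 : (Finset.univ.filter fun A : Tm V => A ⊆ ft f ρ) = (ft f ρ).powerset := by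
      ext A
      simp
    simp only
    rw [h6, ← Finset.sum_pow_mul_eq_add_pow r 1 (ft f ρ), Finset.mul_sum]
    refine Finset.sum_congr rfl fun A _ => ?_
    rw [one_pow, mul_one]
  have hr1 : r + 1 ≤ 2 / η := by
    rw [hr, div_div_eq_mul_div, div_add_one hη.ne']
    exact div_le_div_of_nonneg_right (by linarith) hη.le
  have h6 : ∑ ρ, wt η ρ * (r + 1) ^ (ft f ρ).card ≤ ∑ ρ : V → Option Bool, wt η ρ * (r + 1) ^ t :=
    Finset.sum_le_sum fun ρ _ => mul_le_mul_of_nonneg_left
      (pow_le_pow_right₀ (by linarith) (ft_card hf ρ)) (wt_nonneg hη hη1 _)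
  calc ∑ i, qq η (First f i) = ∑ q ∈ S, wt η q.2 := h1
    _ = ∑ q ∈ S, W (g q) := h2
    _ = ∑ q ∈ S.image g, W q := h3
    _ ≤ ∑ q ∈ T, W q := h4
    _ = ∑ ρ, wt η ρ * (r + 1) ^ (ft f ρ).card := h5
    _ ≤ ∑ ρ : V → Option Bool, wt η ρ * (r + 1) ^ t := h6
    _ = (r + 1) ^ t := by rw [← Finset.sum_mul, sum_wt, one_mul]
    _ ≤ (2 / η) ^ t := pow_le_pow_left₀ (by linarith) hr1 t

end Pool.Agent.Helper89.DT
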